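import Pool.Agent.CD7.TDefs

/-!
Row GOOD: almost all letters of index `q` are paired in parallel, with opposite heights.
-/

set_option autoImplicit false

namespace H55CD

open H74CL Finset

lemma isT_lt {L : Wd} {q i : ℕ} (h : isT L q i) : i < L.length := by
  by_contra hc
  unfold isT at h
  rw [List.getElem?_eq_none (by omega)] at h
  simp at h

section ps
variable {L : Wd} {q : ℕ}

lemma ps_isT {t : ℕ} (h : t < nT L q) : isT L q (ps L q t) :=
  Nat.nth_mem t (fun hf => lt_of_lt_of_le h (Nat.count_le_card hf _))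

lemma ps_lt {t : ℕ} (h : t < nT L q) : ps L q t < L.length := isT_lt (ps_isT h)

lemma count_ps {t : ℕ} (h : t < nT L q) : Nat.count (isT L q) (ps L q t) = t :=
  Nat.count_nth (fun hf => lt_of_lt_of_le h (Nat.count_le_card hf _))

lemma ps_count {i : ℕ} (h : isT L q i) : ps L q (Nat.count (isT L q) i) = i := Nat.nth_count h

lemma count_lt_nT {i : ℕ} (h : isT L q i) : Nat.count (isT L q) i < nT L q :=
  Nat.count_strict_mono h (isT_lt h)

lemma isT_pi {π c : ℕ → ℕ} (hG : Glue L π c) {i : ℕ} (hi : i < L.length) :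
    isT L q (π i) ↔ isT L q i := by
  unfold isT
  rw [hG.lab i hi, Option.map_map]
  have : (Prod.fst ∘ il : ℕ × Bool → ℕ) = Prod.fst := by funext p; rfl
  rw [this]

lemma ps_tau {π c : ℕ → ℕ} (hG : Glue L π c) {t : ℕ} (ht : t < nT L q) :
    ps L q (tau L q π t) = π (ps L q t) :=
  ps_count ((isT_pi hG (ps_lt ht)).2 (ps_isT ht))

lemma sgn_pi {π c : ℕ → ℕ} (hG : Glue L π c) {i : ℕ} (hi : i < L.length) :
    sgn' L (π i) = !sgn' L i := by
  unfold sgn'
  rw [hG.lab i hi, List.getElem?_eq_getElem hi]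
  simp [il]

end ps

theorem tau_lt (L : Wd) (q : ℕ) (π c : ℕ → ℕ) (hG : Glue L π c) (t : ℕ) (ht : t < nT L q) :
    tau L q π t < nT L q :=
  count_lt_nT ((isT_pi hG (ps_lt ht)).2 (ps_isT ht))

theorem tau_tau (L : Wd) (q : ℕ) (π c : ℕ → ℕ) (hG : Glue L π c) (t : ℕ) (ht : t < nT L q) :
    tau L q π (tau L q π t) = t := by
  have h1 := ps_tau hG ht
  rw [tau, h1, hG.inv _ (ps_lt ht), count_ps ht]

theorem sg_tau (L : Wd) (q : ℕ) (π c : ℕ → ℕ) (hG : Glue L π c) (t : ℕ) (ht : t < nT L q) :
    sg L q (tau L q π t) = !sg L q t := by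
  unfold sg
  rw [ps_tau hG ht, sgn_pi hG (ps_lt ht)]

/-- the permutation `i ↦ i + 1` of `ℤ / n` -/
noncomputable def rot (n : ℕ) (hn : 0 < n) : Equiv.Perm (Fin n) :=
  Equiv.ofBijective (fun i => (⟨(i.1 + 1) % n, Nat.mod_lt _ hn⟩ : Fin n)) (by
    rw [← Finite.injective_iff_bijective]
    intro i j h
    have h1 : (i.1 + 1) % n = (j.1 + 1) % n := congrArg Fin.val h
    have hi := i.2
    have hj := j.2
    apply Fin.ext
    by_cases h2 : i.1 + 1 < n
    · by_cases h3 : j.1 + 1 < n
      · rw [Nat.mod_eq_of_lt h2, Nat.mod_eq_of_lt h3] at h1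
        omega
      · have h4 : j.1 + 1 = n := by omega
        rw [h4, Nat.mod_self, Nat.mod_eq_of_lt h2] at h1
        omega
    · have h5 : i.1 + 1 = n := by omega
      by_cases h3 : j.1 + 1 < n
      · rw [h5, Nat.mod_self, Nat.mod_eq_of_lt h3] at h1
        omega
      · omega)

lemma rot_val (n : ℕ) (hn : 0 < n) (i : Fin n) : (rot n hn i).1 = (i.1 + 1) % n := rfl

lemma ht_succ (L : Wd) {i : ℕ} (hi : i < L.length) : ht L (i + 1) = ht L i + al (L[i]) := by
  unfold ht ax
  rw [List.take_add_one, List.getElem?_eq_getElem hi, List.map_append, List.sum_append]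
  simp

lemma ht_zero (L : Wd) : ht L 0 = 0 := by simp [ht, ax]

/-- a class function only sees the number of the next letter of index `q` -/
lemma class_next {X : Type*} (L : Wd) (q : ℕ) (hM : 0 < nT L q) (hn : 0 < L.length)
    (f : Fin L.length → X)
    (hf : ∀ i : Fin L.length, ¬ isT L q i.1 → f (rot _ hn i) = f i) (i : ℕ) (hi : i < L.length)
    (j : ℕ) (hj : j < L.length) (hij : j = ps L q (Nat.count (isT L q) i % nT L q)) :
    f ⟨i, hi⟩ = f ⟨j, hj⟩ := by
  -- before the last letter
  have hA : ∀ d i : ℕ, ∀ hi : i < L.length, ∀ j : ℕ, ∀ hj : j < L.length,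
      Nat.count (isT L q) i < nT L q → j = ps L q (Nat.count (isT L q) i) → i + d = j →
      f ⟨i, hi⟩ = f ⟨j, hj⟩ := by
    intro d
    induction d with
    | zero =>
      intro i hi j hj _ _ h3
      congr 1
      exact Fin.ext h3
    | succ d ih =>
      intro i hi j hj h1 h2 h3
      have h4 : ¬ isT L q i := by
        intro h5
        rw [ps_count h5] at h2
        omega
      have h5 : Nat.count (isT L q) (i + 1) = Nat.count (isT L q) i :=
        (Nat.count_succ_eq_count_iff (p := isT L q)).2 h4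
      have h6 := hf ⟨i, hi⟩ h4
      have h7 : rot _ hn ⟨i, hi⟩ = (⟨i + 1, by omega⟩ : Fin L.length) := by
        apply Fin.ext
        rw [rot_val]
        change (i + 1) % L.length = i + 1
        exact Nat.mod_eq_of_lt (by omega)
      rw [← h6, h7]
      exact ih (i + 1) (by omega) j hj (by rw [h5]; exact h1) (by rw [h5]; exact h2) (by omega)
  have hA' : ∀ i : ℕ, ∀ hi : i < L.length, ∀ j : ℕ, ∀ hj : j < L.length,
      Nat.count (isT L q) i < nT L q → j = ps L q (Nat.count (isT L q) i) →
      f ⟨i, hi⟩ = f ⟨j, hj⟩ := by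
    intro i hi j hj h1 h2
    have h3 : i ≤ j := by
      obtain ⟨x, hx, hx'⟩ := Nat.exists_of_count_lt_count (p := isT L q) h1
      have := Nat.le_nth_count' (p := isT L q) (n := i) ⟨x, hx', (Set.mem_Ico.1 hx).1⟩
      rw [h2]
      exact this
    obtain ⟨d, hd⟩ := Nat.exists_eq_add_of_le h3
    exact hA d i hi j hj h1 h2 hd.symm
  -- after the last letter
  have hB : ∀ d i : ℕ, ∀ hi : i < L.length, i + d + 1 = L.length →
      Nat.count (isT L q) i = nT L q → f ⟨i, hi⟩ = f ⟨0, hn⟩ := by
    intro d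
    induction d with
    | zero =>
      intro i hi h1 h2
      have h4 : ¬ isT L q i := fun h5 => by
        have := count_lt_nT h5
        omega
      have h6 := hf ⟨i, hi⟩ h4
      have h7 : rot _ hn ⟨i, hi⟩ = (⟨0, hn⟩ : Fin L.length) := by
        apply Fin.ext
        rw [rot_val]
        have : i + 1 = L.length := by omega
        simp [this]
      rw [← h6, h7]
    | succ d ih =>
      intro i hi h1 h2
      have h4 : ¬ isT L q i := fun h5 => by
        have := count_lt_nT h5
        omega
      have h5 : Nat.count (isT L q) (i + 1) = Nat.count (isT L q) i :=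
        (Nat.count_succ_eq_count_iff (p := isT L q)).2 h4
      have h6 := hf ⟨i, hi⟩ h4
      have h7 : rot _ hn ⟨i, hi⟩ = (⟨i + 1, by omega⟩ : Fin L.length) := by
        apply Fin.ext
        rw [rot_val]
        change (i + 1) % L.length = i + 1
        exact Nat.mod_eq_of_lt (by omega)
      rw [← h6, h7]
      exact ih (i + 1) (by omega) (by omega) (by rw [h5]; exact h2)
  have hle : Nat.count (isT L q) i ≤ nT L q := Nat.count_monotone _ hi.le
  rcases Nat.lt_or_ge (Nat.count (isT L q) i) (nT L q) with h1 | h1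
  · rw [Nat.mod_eq_of_lt h1] at hij
    exact hA' i hi j hj h1 hij
  · have h2 : Nat.count (isT L q) i = nT L q := le_antisymm hle h1
    rw [h2, Nat.mod_self] at hij
    obtain ⟨d, hd⟩ := Nat.exists_eq_add_of_le (show i + 1 ≤ L.length from hi)
    rw [hB d i hi (by omega) h2]
    apply hA' 0 hn j hj
    · rw [Nat.count_zero]; exact hM
    · rw [Nat.count_zero]; exact hij

lemma ht_length (L : Wd) : ht L L.length = ∑ i : Fin L.length, al (L[i]) := by
  unfold ht ax
  rw [List.take_length]
  exact (Fin.sum_univ_fun_getElem L al).symm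

lemma al_il (p : ℕ × Bool) : al (il p) = - al p := by
  rcases p with ⟨i, s⟩
  unfold al il
  by_cases h : i = 0
  · cases s <;> simp [h]
  · simp [h]

lemma al_pi {L : Wd} {π c : ℕ → ℕ} (hG : Glue L π c) (i : ℕ) (hi : i < L.length)
    (hi' : π i < L.length) : al (L[π i]) = - al (L[i]) := by
  have h := hG.lab i hi
  rw [List.getElem?_eq_getElem hi', List.getElem?_eq_getElem hi, Option.map_some,
    Option.some_inj] at h
  rw [h, al_il]

lemma ht_length_zero {L : Wd} {π c : ℕ → ℕ} (hG : Glue L π c) : ht L L.length = 0 := by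
  have h1 : ∑ i : Fin L.length, al (L[i]) = ∑ i : Fin L.length, - al (L[i]) := by
    refine Finset.sum_bij' (fun i _ => (⟨π i.1, hG.lt i.1 i.2⟩ : Fin L.length))
      (fun i _ => (⟨π i.1, hG.lt i.1 i.2⟩ : Fin L.length)) ?_ ?_ ?_ ?_ ?_
    · intro i _; exact Finset.mem_univ _
    · intro i _; exact Finset.mem_univ _
    · intro i _; exact Fin.ext (hG.inv i.1 i.2)
    · intro i _; exact Fin.ext (hG.inv i.1 i.2)
    · intro i _
      have := al_pi hG i.1 i.2 (hG.lt i.1 i.2)
      change al (L[i.1]) = - al (L[π i.1]'(hG.lt i.1 i.2))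
      rw [this, neg_neg]
  rw [ht_length]
  rw [Finset.sum_neg_distrib] at h1
  linarith

lemma al_isT {L : Wd} {q i : ℕ} (hq : 1 ≤ q) (hi : i < L.length) (h : isT L q i) :
    al (L[i]) = 0 := by
  unfold isT at h
  rw [List.getElem?_eq_getElem hi, Option.map_some, Option.some_inj] at h
  unfold al
  rw [if_neg (by omega)]

theorem good (L : Wd) (q g : ℕ) (hq : 1 ≤ q) (π c : ℕ → ℕ) (hG : Glue L π c)
    (hc : L.length + 2 ≤ 2 * (cols L c).card + 4 * g) (K : ℕ)
    (hK : ((Finset.range (nT L q)).filter (fun t =>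
      sg L q ((t + 1) % nT L q) ≠ sg L q t ∧
      hh L q ((t + 1) % nT L q) = hh L q t)).card ≤ K) :
    ∃ Bad : Finset ℕ, Bad.card ≤ 12 * g + 4 * K ∧ ∀ t < nT L q, t ∉ Bad →
      (tau L q π ((t + 1) % nT L q) + 1) % nT L q = tau L q π t ∧
      hh L q ((t + 1) % nT L q) - hh L q t + hh L q (tau L q π t) -
        hh L q (tau L q π ((t + 1) % nT L q)) = 0 := by
  classical
  rcases Nat.eq_zero_or_pos (nT L q) with h0 | h0
  · exact ⟨∅, by simp, fun t ht => by omega⟩
  have hn : 0 < L.length := lt_of_le_of_lt (Nat.zero_le _) (ps_lt h0)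
  let pi : Fin L.length → Fin L.length := fun i => ⟨π i.1, hG.lt i.1 i.2⟩
  have hpi : ∀ i, pi (pi i) = i := fun i => Fin.ext (hG.inv i.1 i.2)
  have hPpi : ∀ i : Fin L.length, isT L q (pi i).1 ↔ isT L q i.1 := fun i => isT_pi hG i.2
  let pa : Fin L.length → Fin L.length := fun i => if isT L q i.1 then i else pi i
  let pb : Fin L.length → Fin L.length := fun i => if isT L q i.1 then pi i else i
  have hpaT : ∀ i : Fin L.length, isT L q i.1 → pa i = i := fun i h => if_pos h
  have hpaN : ∀ i : Fin L.length, ¬ isT L q i.1 → pa i = pi i := fun i h => if_neg h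
  have hpbT : ∀ i : Fin L.length, isT L q i.1 → pb i = pi i := fun i h => if_pos h
  have hpbN : ∀ i : Fin L.length, ¬ isT L q i.1 → pb i = i := fun i h => if_neg h
  have hpa : ∀ i, pa (pa i) = i := by
    intro i
    by_cases h : isT L q i.1
    · rw [hpaT i h, hpaT i h]
    · rw [hpaN i h, hpaN (pi i) (fun h' => h ((hPpi i).1 h')), hpi]
  have hpb : ∀ i, pb (pb i) = i := by
    intro i
    by_cases h : isT L q i.1
    · rw [hpbT i h, hpbT (pi i) ((hPpi i).2 h), hpi]
    · rw [hpbN i h, hpbN i h]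
  let p : Equiv.Perm (Fin L.length) := ⟨pa, pa, hpa, hpa⟩
  let p2 : Equiv.Perm (Fin L.length) := ⟨pb, pb, hpb, hpb⟩
  let φ : Equiv.Perm (Fin L.length) := p2.trans (rot _ hn)
  have hφT : ∀ i : Fin L.length, isT L q i.1 → φ i = rot _ hn (pi i) := by
    intro i h
    change rot _ hn (pb i) = _
    rw [hpbT i h]
  have hφN : ∀ i : Fin L.length, ¬ isT L q i.1 → φ i = rot _ hn i := by
    intro i h
    change rot _ hn (pb i) = _
    rw [hpbN i h]
  have hpT : ∀ i : Fin L.length, isT L q i.1 → p i = i := hpaT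
  have hpN : ∀ i : Fin L.length, ¬ isT L q i.1 → p i = pi i := hpaN
  -- the colours
  have hcolsdef : ∀ v, v ∈ cols L c ↔ ∃ i, i < L.length + 1 ∧ c i = v := by
    intro v
    simp only [cols, Finset.mem_image, Finset.mem_range]
  let K0 : Type := {v // v ∈ cols L c}
  let cc : Fin L.length → K0 := fun i => ⟨c i.1, (hcolsdef _).2 ⟨i.1, by have := i.2; omega, rfl⟩⟩
  have hcc : Function.Surjective cc := by
    rintro ⟨v, hv⟩
    obtain ⟨i, hi, rfl⟩ := (hcolsdef v).1 hv
    by_cases h : i < L.length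
    · exact ⟨⟨i, h⟩, rfl⟩
    · have : i = L.length := by omega
      subst this
      exact ⟨⟨0, hn⟩, Subtype.ext hG.cyc⟩
  have hccol : ∀ i, cc (φ (p i)) = cc i := by
    intro i
    have h1 : φ (p i) = rot _ hn (pi i) := by
      by_cases h : isT L q i.1
      · rw [hpT i h, hφT i h]
      · rw [hpN i h, hφN (pi i) (fun h' => h ((hPpi i).1 h'))]
    rw [h1]
    apply Subtype.ext
    change c ((π i.1 + 1) % L.length) = c i.1
    rw [hG.col i.1 i.2]
    have := hG.lt i.1 i.2
    by_cases h : π i.1 + 1 < L.length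
    · rw [Nat.mod_eq_of_lt h]
    · have h2 : π i.1 + 1 = L.length := by omega
      rw [h2, Nat.mod_self, hG.cyc]
  -- the letters which are not of index `q`
  let A : Finset (Fin L.length) :=
    Finset.univ.filter (fun i => ¬ isT L q i.1 ∧ sgn' L i.1 = true)
  let A' : Finset (Fin L.length) :=
    Finset.univ.filter (fun i => ¬ isT L q i.1 ∧ sgn' L i.1 = false)
  have hsgn : ∀ i : Fin L.length, sgn' L (pi i).1 = !sgn' L i.1 := fun i => sgn_pi hG i.2
  have hA : ∀ i, i ∈ A ∨ p i ∈ A ∨ p i = i := by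
    intro i
    by_cases h : isT L q i.1
    · right; right; exact hpT i h
    · rcases hs : sgn' L i.1 with _ | _
      · right; left
        rw [hpN i h]
        refine Finset.mem_filter.2 ⟨Finset.mem_univ _, fun h' => h ((hPpi i).1 h'), ?_⟩
        rw [hsgn, hs]; rfl
      · left
        exact Finset.mem_filter.2 ⟨Finset.mem_univ _, h, hs⟩
  obtain ⟨Q', k', I, hI, hk1, hk2, hne, hiso⟩ := ree_iso A φ p cc hcc hpa hccol hA
  have hKcard : Fintype.card K0 = (cols L c).card := Fintype.card_coe _
  have hAA' : A.card = A'.card := by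
    refine Finset.card_bij' (fun i _ => pi i) (fun i _ => pi i) ?_ ?_ ?_ ?_
    · intro i hi
      obtain ⟨-, h1, h2⟩ := Finset.mem_filter.1 hi
      refine Finset.mem_filter.2 ⟨Finset.mem_univ _, fun h' => h1 ((hPpi i).1 h'), ?_⟩
      rw [hsgn, h2]; rfl
    · intro i hi
      obtain ⟨-, h1, h2⟩ := Finset.mem_filter.1 hi
      refine Finset.mem_filter.2 ⟨Finset.mem_univ _, fun h' => h1 ((hPpi i).1 h'), ?_⟩
      rw [hsgn, h2]; rfl
    · intro i _; exact hpi i
    · intro i _; exact hpi i
  have hTcard : (Finset.univ.filter (fun i : Fin L.length => isT L q i.1)).card = nT L q := by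
    unfold nT
    rw [Nat.count_eq_card_filter_range]
    refine Finset.card_bij (fun i _ => i.1) ?_ ?_ ?_
    · intro i hi
      exact Finset.mem_filter.2 ⟨Finset.mem_range.2 i.2, (Finset.mem_filter.1 hi).2⟩
    · intro i _ j _ h; exact Fin.ext h
    · intro b hb
      obtain ⟨h1, h2⟩ := Finset.mem_filter.1 hb
      exact ⟨⟨b, Finset.mem_range.1 h1⟩, Finset.mem_filter.2 ⟨Finset.mem_univ _, h2⟩, rfl⟩
  have hcount : L.length = nT L q + A.card + A'.card := by
    rw [← hTcard, Finset.card_filter, Finset.card_filter, Finset.card_filter,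
      ← Finset.sum_add_distrib, ← Finset.sum_add_distrib]
    have : ∀ i : Fin L.length, (if isT L q i.1 then 1 else 0) +
        (if ¬ isT L q i.1 ∧ sgn' L i.1 = true then 1 else 0) +
        (if ¬ isT L q i.1 ∧ sgn' L i.1 = false then 1 else 0) = 1 := by
      intro i
      by_cases h : isT L q i.1
      · simp [h]
      · rcases hs : sgn' L i.1 with _ | _ <;> simp [h]
    rw [Finset.sum_congr rfl (fun i _ => this i)]
    simp
  have hImain : nT L q + 2 ≤ 2 * I.card + 4 * g := by omega
  -- classes of numbers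
  let κ : ℕ → Q' := fun t => if h : t < nT L q then k' ⟨ps L q t, ps_lt h⟩ else k' ⟨0, hn⟩
  have hκ : ∀ t (h : t < nT L q), κ t = k' ⟨ps L q t, ps_lt h⟩ := fun t h => dif_pos h
  let σ : ℕ → ℕ := fun t => (tau L q π t + 1) % nT L q
  have hσlt : ∀ t, σ t < nT L q := fun t => Nat.mod_lt _ h0
  have hτlt : ∀ t < nT L q, tau L q π t < nT L q := tau_lt L q π c hG
  have hττ : ∀ t < nT L q, tau L q π (tau L q π t) = t := tau_tau L q π c hG
  have hσinj : ∀ t < nT L q, ∀ t' < nT L q, σ t = σ t' → t = t' := by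
    intro t ht t' ht' h
    have h1 := hτlt t ht
    have h2 := hτlt t' ht'
    have h3 : tau L q π t = tau L q π t' := by
      simp only [σ] at h
      by_cases h4 : tau L q π t + 1 < nT L q
      · by_cases h5 : tau L q π t' + 1 < nT L q
        · rw [Nat.mod_eq_of_lt h4, Nat.mod_eq_of_lt h5] at h
          omega
        · have h6 : tau L q π t' + 1 = nT L q := by omega
          rw [Nat.mod_eq_of_lt h4, h6, Nat.mod_self] at h
          omega
      · have h6 : tau L q π t + 1 = nT L q := by omega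
        by_cases h5 : tau L q π t' + 1 < nT L q
        · rw [Nat.mod_eq_of_lt h5, h6, Nat.mod_self] at h
          omega
        · omega
    rw [← hττ t ht, ← hττ t' ht', h3]
  -- the number of the position after the partner
  have hrotcount : ∀ i : Fin L.length, Nat.count (isT L q) (rot _ hn i).1 % nT L q =
      (Nat.count (isT L q) (i.1 + 1)) % nT L q := by
    intro i
    rw [rot_val]
    by_cases h : i.1 + 1 < L.length
    · rw [Nat.mod_eq_of_lt h]
    · have h1 : i.1 + 1 = L.length := by have := i.2; omega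
      rw [h1, Nat.mod_self, Nat.count_zero]
      change 0 % nT L q = nT L q % nT L q
      simp
  have hcountφT : ∀ t (h : t < nT L q),
      Nat.count (isT L q) (φ ⟨ps L q t, ps_lt h⟩).1 % nT L q = σ t := by
    intro t h
    rw [hφT _ (ps_isT h), hrotcount]
    change Nat.count (isT L q) (π (ps L q t) + 1) % nT L q = σ t
    have h1 : isT L q (π (ps L q t)) := (isT_pi hG (ps_lt h)).2 (ps_isT h)
    rw [(Nat.count_succ_eq_succ_count_iff (p := isT L q)).2 h1]
    rfl
  have hcountφN : ∀ i : Fin L.length, ¬ isT L q i.1 →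
      Nat.count (isT L q) (φ i).1 % nT L q = Nat.count (isT L q) i.1 % nT L q := by
    intro i h
    rw [hφN i h, hrotcount, (Nat.count_succ_eq_count_iff (p := isT L q)).2 h]
  have hnext : ∀ i : Fin L.length, ∀ h : Nat.count (isT L q) i.1 % nT L q < nT L q,
      k' i = k' ⟨ps L q (Nat.count (isT L q) i.1 % nT L q), ps_lt h⟩ := by
    intro i h
    refine class_next L q h0 hn k' ?_ i.1 i.2 _ _ rfl
    intro j hj
    have := hk1 j
    rw [hφN j hj] at this
    exact this
  have hκσ : ∀ t < nT L q, κ (σ t) = κ t := by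
    intro t ht
    rw [hκ t ht, hκ (σ t) (hσlt t), ← hk1 ⟨ps L q t, ps_lt ht⟩,
      hnext (φ ⟨ps L q t, ps_lt ht⟩) (Nat.mod_lt _ h0)]
    congr 1
    apply Fin.ext
    change ps L q (σ t) = ps L q _
    rw [hcountφT t ht]
  -- isolated classes
  have hisoκ : ∀ x ∈ I, ∀ S : ℕ → Prop, (∀ t < nT L q, S t ↔ S (σ t)) → ∀ t < nT L q,
      ∀ t' < nT L q, κ t = x → κ t' = x → S t → S t' := by
    intro x hx S hS t ht t' ht' hκt hκt' hSt
    have h1 := hiso x hx {i : Fin L.length | S (Nat.count (isT L q) i.1 % nT L q)} ?_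
      ⟨ps L q t, ps_lt ht⟩ ⟨ps L q t', ps_lt ht'⟩ (by rw [← hκ t ht]; exact hκt)
      (by rw [← hκ t' ht']; exact hκt')
    · simp only [Set.mem_ofPred_eq] at h1
      rw [count_ps ht, count_ps ht', Nat.mod_eq_of_lt ht, Nat.mod_eq_of_lt ht'] at h1
      exact h1 hSt
    · intro e
      simp only [Set.mem_ofPred_eq]
      by_cases he : isT L q e.1
      · have h2 : Nat.count (isT L q) e.1 < nT L q := count_lt_nT he
        have h3 : e = ⟨ps L q (Nat.count (isT L q) e.1), ps_lt h2⟩ := Fin.ext (ps_count he).symm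
        have h4 := hcountφT _ h2
        rw [← h3] at h4
        rw [h4, Nat.mod_eq_of_lt h2]
        exact hS _ h2
      · rw [hcountφN e he]
  -- the energy of a class
  have hrotht : ∀ i : Fin L.length, ht L (rot _ hn i).1 = ht L (i.1 + 1) := by
    intro i
    rw [rot_val]
    by_cases h : i.1 + 1 < L.length
    · rw [Nat.mod_eq_of_lt h]
    · have h1 : i.1 + 1 = L.length := by have := i.2; omega
      rw [h1, Nat.mod_self, ht_zero, ht_length_zero hG]
  have henergy : ∀ x : Q', ∑ t ∈ (Finset.range (nT L q)).filter (fun t => κ t = x),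
      (hh L q (tau L q π t) - hh L q t) = 0 := by
    intro x
    have hsum : ∀ f : Fin L.length → ℤ,
        ∑ i ∈ Finset.univ.filter (fun i => k' i = x), f (φ i) =
        ∑ i ∈ Finset.univ.filter (fun i => k' i = x), f i := by
      intro f
      refine Finset.sum_equiv φ ?_ ?_
      · intro i
        simp [hk1]
      · intro i _; rfl
    have hsump : ∀ f : Fin L.length → ℤ,
        ∑ i ∈ Finset.univ.filter (fun i => k' i = x), f (p i) =
        ∑ i ∈ Finset.univ.filter (fun i => k' i = x), f i := by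
      intro f
      refine Finset.sum_equiv p ?_ ?_
      · intro i
        simp [hk2]
      · intro i _; rfl
    let G : Fin L.length → ℤ := fun i => if isT L q i.1 then 0 else al (L[i])
    let H : Fin L.length → ℤ := fun i => if isT L q i.1 then ht L (pi i).1 - ht L i.1 else 0
    have h1 : ∀ i, ht L (φ i).1 - ht L i.1 = G i + H i := by
      intro i
      by_cases h : isT L q i.1
      · have h2 : al (L[(pi i).1]'(pi i).2) = 0 := al_isT hq (pi i).2 ((hPpi i).2 h)
        simp only [G, H, if_pos h]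
        rw [hφT i h, hrotht, ht_succ L (pi i).2, h2]
        ring
      · simp only [G, H, if_neg h]
        rw [hφN i h, hrotht, ht_succ L i.2]
        change ht L i.1 + al (L[i.1]) - ht L i.1 = al (L[i.1]) + 0
        ring
    have h2 : ∑ i ∈ Finset.univ.filter (fun i => k' i = x), (ht L (φ i).1 - ht L i.1) = 0 := by
      rw [Finset.sum_sub_distrib, hsum (fun i => ht L i.1), sub_self]
    have h3 : ∑ i ∈ Finset.univ.filter (fun i => k' i = x), G i = 0 := by
      have h4 : ∀ i, G (p i) = - G i := by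
        intro i
        by_cases h : isT L q i.1
        · rw [hpT i h]
          simp only [G, if_pos h, neg_zero]
        · rw [hpN i h]
          have h' : ¬ isT L q (pi i).1 := fun h'' => h ((hPpi i).1 h'')
          simp only [G, if_neg h, if_neg h']
          exact al_pi hG i.1 i.2 (hG.lt i.1 i.2)
      have h5 := hsump G
      rw [Finset.sum_congr rfl (fun i _ => h4 i), Finset.sum_neg_distrib] at h5
      linarith
    have h4 : ∑ i ∈ Finset.univ.filter (fun i => k' i = x), H i = 0 := by
      rw [Finset.sum_congr rfl (fun i _ => h1 i), Finset.sum_add_distrib, h3, zero_add] at h2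
      exact h2
    have h5 : ∑ t ∈ (Finset.range (nT L q)).filter (fun t => κ t = x),
        (hh L q (tau L q π t) - hh L q t) =
        ∑ i ∈ (Finset.univ.filter (fun i => k' i = x)).filter
          (fun i : Fin L.length => isT L q i.1), (ht L (pi i).1 - ht L i.1) := by
      refine Finset.sum_bij (fun t ht => (⟨ps L q t,
        ps_lt (Finset.mem_range.1 (Finset.mem_filter.1 ht).1)⟩ : Fin L.length)) ?_ ?_ ?_ ?_
      · intro t ht
        have h6 := Finset.mem_range.1 (Finset.mem_filter.1 ht).1
        refine Finset.mem_filter.2 ⟨Finset.mem_filter.2 ⟨Finset.mem_univ _, ?_⟩, ps_isT h6⟩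
        rw [← hκ t h6]
        exact (Finset.mem_filter.1 ht).2
      · intro t ht t' ht' h
        have h6 := Finset.mem_range.1 (Finset.mem_filter.1 ht).1
        have h7 := Finset.mem_range.1 (Finset.mem_filter.1 ht').1
        have h8 : ps L q t = ps L q t' := congrArg Fin.val h
        rw [← count_ps h6, ← count_ps h7, h8]
      · intro i hi
        obtain ⟨h6, h7⟩ := Finset.mem_filter.1 hi
        have h8 : Nat.count (isT L q) i.1 < nT L q := count_lt_nT h7
        have h9 : (⟨ps L q (Nat.count (isT L q) i.1), ps_lt h8⟩ : Fin L.length) = i :=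
          Fin.ext (ps_count h7)
        refine ⟨Nat.count (isT L q) i.1, Finset.mem_filter.2 ⟨Finset.mem_range.2 h8, ?_⟩, h9⟩
        rw [hκ _ h8, h9]
        exact (Finset.mem_filter.1 h6).2
      · intro t ht
        have h6 := Finset.mem_range.1 (Finset.mem_filter.1 ht).1
        unfold hh
        rw [ps_tau hG h6]
    rw [h5, Finset.sum_filter]
    exact h4
  -- counting
  let fib : Q' → Finset ℕ := fun x => (Finset.range (nT L q)).filter (fun t => κ t = x)
  have hmem : ∀ x t, t ∈ fib x ↔ t < nT L q ∧ κ t = x := by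
    intro x t
    simp only [fib, Finset.mem_filter, Finset.mem_range]
  have hfib1 : ∀ x ∈ I, 1 ≤ (fib x).card := by
    intro x hx
    obtain ⟨d, hd⟩ := hne x hx
    have h1 : Nat.count (isT L q) d.1 % nT L q < nT L q := Nat.mod_lt _ h0
    refine Finset.card_pos.2 ⟨Nat.count (isT L q) d.1 % nT L q, (hmem _ _).2 ⟨h1, ?_⟩⟩
    rw [hκ _ h1, ← hnext d h1, hd]
  let I1 : Finset Q' := I.filter (fun x => (fib x).card = 1)
  let I2 : Finset Q' := I.filter (fun x => (fib x).card = 2)
  have hsum1 : ∑ x ∈ I, (fib x).card ≤ nT L q := by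
    have h1 : ∑ x ∈ I, (fib x).card =
        ((Finset.range (nT L q)).filter (fun t => κ t ∈ I)).card := by
      rw [Finset.card_eq_sum_card_fiberwise (f := κ) (t := I)
        (fun t ht => Finset.mem_coe.2 (Finset.mem_filter.1 (Finset.mem_coe.1 ht)).2)]
      refine Finset.sum_congr rfl (fun x hx => ?_)
      congr 1
      ext t
      simp only [fib, Finset.mem_filter, Finset.mem_range]
      constructor
      · rintro ⟨h2, h3⟩; exact ⟨⟨h2, by rw [h3]; exact hx⟩, h3⟩
      · rintro ⟨⟨h2, _⟩, h3⟩; exact ⟨h2, h3⟩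
    rw [h1]
    calc _ ≤ (Finset.range (nT L q)).card := Finset.card_filter_le _ _
      _ = nT L q := Finset.card_range _
  have hsum2 : 3 * I.card ≤ ∑ x ∈ I, (fib x).card + (2 * I1.card + I2.card) := by
    have h1 : ∑ _x ∈ I, 3 ≤ ∑ x ∈ I, ((fib x).card +
        (2 * (if (fib x).card = 1 then 1 else 0) + (if (fib x).card = 2 then 1 else 0))) := by
      refine Finset.sum_le_sum (fun x hx => ?_)
      have := hfib1 x hx
      split_ifs <;> omega
    rw [Finset.sum_const, smul_eq_mul, Finset.sum_add_distrib, Finset.sum_add_distrib,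
      ← Finset.mul_sum, ← Finset.card_filter, ← Finset.card_filter] at h1
    change I.card * 3 ≤ ∑ x ∈ I, (fib x).card + (2 * I1.card + I2.card) at h1
    omega
  have hfix : ∀ x ∈ I, ∀ t, fib x = {t} → σ t = t := by
    intro x _ t h
    have h1 : t ∈ fib x := by rw [h]; exact Finset.mem_singleton_self _
    obtain ⟨h2, h3⟩ := (hmem _ _).1 h1
    have h4 : σ t ∈ fib x := (hmem _ _).2 ⟨hσlt t, by rw [hκσ t h2, h3]⟩
    rw [h] at h4
    exact Finset.mem_singleton.1 h4
  have hI1 : I1.card ≤ K := by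
    refine le_trans ?_ hK
    have hch : ∀ x : Q', ∃ t, x ∈ I1 → fib x = {t} := by
      intro x
      by_cases hx : x ∈ I1
      · obtain ⟨t, ht⟩ := Finset.card_eq_one.1 (Finset.mem_filter.1 hx).2
        exact ⟨t, fun _ => ht⟩
      · exact ⟨0, fun h => absurd h hx⟩
    choose f hf using hch
    have hf2 : ∀ x ∈ I1, f x < nT L q ∧ κ (f x) = x := by
      intro x hx
      have : f x ∈ fib x := by rw [hf x hx]; exact Finset.mem_singleton_self _
      exact (hmem _ _).1 this
    refine Finset.card_le_card_of_injOn (fun x => tau L q π (f x)) ?_ ?_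
    · intro x hx
      have hx' : x ∈ I1 := hx
      obtain ⟨h1, h2⟩ := hf2 x hx'
      have h3 : σ (f x) = f x := hfix x (Finset.mem_filter.1 hx').1 _ (hf x hx')
      have h4 := henergy x
      change ∑ t ∈ fib x, _ = _ at h4
      rw [hf x hx', Finset.sum_singleton] at h4
      change tau L q π (f x) ∈ _
      have h5 : (tau L q π (f x) + 1) % nT L q = f x := h3
      rw [Finset.mem_coe, Finset.mem_filter, Finset.mem_range, h5]
      refine ⟨hτlt _ h1, ?_, by linarith⟩
      rw [sg_tau L q π c hG _ h1]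
      cases sg L q (f x) <;> simp
    · intro x hx y hy h
      have hx' : x ∈ I1 := hx
      have hy' : y ∈ I1 := hy
      change tau L q π (f x) = tau L q π (f y) at h
      have h1 : f x = f y := by
        rw [← hττ _ (hf2 x hx').1, ← hττ _ (hf2 y hy').1, h]
      rw [← (hf2 x hx').2, ← (hf2 y hy').2, h1]
  let G2 : Finset ℕ :=
    (Finset.range (nT L q)).filter (fun t => κ t ∈ I2)
  have hG2 : G2.card = 2 * I2.card := by
    rw [Finset.card_eq_sum_card_fiberwise (f := κ) (t := I2)
      (fun t ht => Finset.mem_coe.2 (Finset.mem_filter.1 (Finset.mem_coe.1 ht)).2)]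
    have : ∀ x ∈ I2, (G2.filter (fun t => κ t = x)).card = 2 := by
      intro x hx
      rw [← (Finset.mem_filter.1 hx).2]
      congr 1
      ext t
      simp only [G2, fib, Finset.mem_filter, Finset.mem_range]
      constructor
      · rintro ⟨⟨h2, _⟩, h3⟩; exact ⟨h2, h3⟩
      · rintro ⟨h2, h3⟩; exact ⟨⟨h2, by rw [h3]; exact hx⟩, h3⟩
    rw [Finset.sum_congr rfl this, Finset.sum_const, smul_eq_mul, mul_comm]
  let Bad : Finset ℕ := (Finset.range (nT L q)).filter (fun t => κ (tau L q π t) ∉ I2)
  have hBad : Bad.card + G2.card = nT L q := by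
    have h1 : G2.card =
        ((Finset.range (nT L q)).filter (fun t => κ (tau L q π t) ∈ I2)).card := by
      refine Finset.card_bij' (fun t _ => tau L q π t) (fun t _ => tau L q π t) ?_ ?_ ?_ ?_
      · intro t ht
        obtain ⟨h2, h3⟩ := Finset.mem_filter.1 ht
        have h4 := Finset.mem_range.1 h2
        exact Finset.mem_filter.2 ⟨Finset.mem_range.2 (hτlt t h4), by rw [hττ t h4]; exact h3⟩
      · intro t ht
        obtain ⟨h2, h3⟩ := Finset.mem_filter.1 ht
        have h4 := Finset.mem_range.1 h2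
        exact Finset.mem_filter.2 ⟨Finset.mem_range.2 (hτlt t h4), h3⟩
      · intro t ht
        exact hττ t (Finset.mem_range.1 (Finset.mem_filter.1 ht).1)
      · intro t ht
        exact hττ t (Finset.mem_range.1 (Finset.mem_filter.1 ht).1)
    rw [h1, add_comm]
    have h2 := Finset.card_filter_add_card_filter_not (s := Finset.range (nT L q))
      (fun t => κ (tau L q π t) ∈ I2)
    rw [Finset.card_range] at h2
    exact h2
  refine ⟨Bad, by omega, ?_⟩
  intro u hu hub
  have h1 : κ (tau L q π u) ∈ I2 := by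
    by_contra h
    exact hub (Finset.mem_filter.2 ⟨Finset.mem_range.2 hu, h⟩)
  obtain ⟨hxI, hx2⟩ := Finset.mem_filter.1 h1
  have ht1 : tau L q π u < nT L q := hτlt u hu
  have ht1m : tau L q π u ∈ fib (κ (tau L q π u)) := (hmem _ _).2 ⟨ht1, rfl⟩
  obtain ⟨t2, ht2ne, ht2⟩ : ∃ t2, t2 ≠ tau L q π u ∧
      fib (κ (tau L q π u)) = {tau L q π u, t2} := by
    obtain ⟨a, b, hab, h2⟩ := Finset.card_eq_two.1 hx2
    rw [h2] at ht1m
    rcases Finset.mem_insert.1 ht1m with h3 | h3
    · exact ⟨b, by rw [h3]; exact hab.symm, by rw [h3] at h2 ⊢; exact h2⟩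
    · have h3 := Finset.mem_singleton.1 h3
      refine ⟨a, by rw [h3]; exact hab, ?_⟩
      rw [h3] at h2 ⊢
      rw [h2, Finset.pair_comm]
  have ht2m : t2 ∈ fib (κ (tau L q π u)) := by rw [ht2]; simp
  obtain ⟨ht2lt, ht2κ⟩ := (hmem _ _).1 ht2m
  have hstep : ∀ a b : ℕ, a < nT L q → b < nT L q → a ≠ b → κ a = κ (tau L q π u) →
      κ b = κ (tau L q π u) → fib (κ (tau L q π u)) = {a, b} → σ a = b := by
    intro a b ha hb hab hκa hκb hf
    have h2 : σ a ∈ fib (κ (tau L q π u)) := (hmem _ _).2 ⟨hσlt a, by rw [hκσ a ha, hκa]⟩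
    rw [hf] at h2
    rcases Finset.mem_insert.1 h2 with h3 | h3
    · exfalso
      apply hab
      have h4 := hisoκ _ hxI (fun t => t = a) ?_ a ha b hb hκa hκb rfl
      · exact h4.symm
      · intro t ht
        constructor
        · intro h5; rw [h5]; exact h3
        · intro h5
          exact hσinj t ht a ha (by rw [h5, h3])
    · exact Finset.mem_singleton.1 h3
  have hs1 : σ (tau L q π u) = t2 := hstep _ _ ht1 ht2lt ht2ne.symm rfl ht2κ ht2
  have hs2 : σ t2 = tau L q π u :=
    hstep _ _ ht2lt ht1 ht2ne ht2κ rfl (by rw [ht2, Finset.pair_comm])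
  have hs1' : (u + 1) % nT L q = t2 := by
    have : (tau L q π (tau L q π u) + 1) % nT L q = t2 := hs1
    rwa [hττ u hu] at this
  have hen := henergy (κ (tau L q π u))
  change ∑ t ∈ fib (κ (tau L q π u)), _ = _ at hen
  rw [ht2, Finset.sum_pair ht2ne.symm, hττ u hu] at hen
  rw [hs1']
  refine ⟨hs2, ?_⟩
  linarith

end H55CD
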